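import Mathlib

/-!
# SBG, module KPL: linear algebra
-/

namespace Pool.Agent.SBG.H51

open Matrix

section lin

variable {ι : Type} [Fintype ι] [DecidableEq ι]

omit [DecidableEq ι] in
/-- independent rows have a nonzero minor -/
theorem exists_minor {r : Type} [Fintype r] [DecidableEq r] (v : r → ι → ℚ)
    (hv : LinearIndependent ℚ v) :
    ∃ c : r → ι, (Matrix.of fun i j => v i (c j)).det ≠ 0 := by
  classical
  set V : Matrix r ι ℚ := Matrix.of v with hV
  have hrank : V.rank = Fintype.card r := LinearIndependent.rank_matrix (M := V) hv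
  have hspan : Submodule.span ℚ (Set.range V.col) = ⊤ := by
    apply Submodule.eq_top_of_finrank_eq
    rw [← Matrix.rank_eq_finrank_span_cols, hrank, Module.finrank_fintype_fun_eq_card]
  obtain ⟨t, ht1, ht2, ht3⟩ := exists_linearIndependent ℚ (Set.range V.col)
  rw [hspan] at ht2
  have htf : t.Finite := (Set.finite_range V.col).subset ht1
  have := htf.fintype
  let B : Module.Basis t ℚ (r → ℚ) := Module.Basis.mk ht3 (by
    rw [Subtype.range_coe, ht2])
  have hcard : Fintype.card r = Fintype.card t := by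
    rw [← Module.finrank_eq_card_basis B, Module.finrank_fintype_fun_eq_card]
  let e : r ≃ t := Fintype.equivOfCardEq hcard
  have hch : ∀ j : r, ∃ c : ι, V.col c = (e j : r → ℚ) := fun j => ht1 (e j).2
  choose c hc using hch
  refine ⟨c, ?_⟩
  have hli : LinearIndependent ℚ (fun j : r => (e j : r → ℚ)) := ht3.comp e e.injective
  have hcol : (Matrix.of fun i j => v i (c j)).col = fun j : r => (e j : r → ℚ) := by
    funext j
    rw [← hc j]
    rfl
  rw [← hcol] at hli
  have h1 := Matrix.linearIndependent_cols_iff_isUnit.1 hli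
  exact ((Matrix.isUnit_iff_isUnit_det _).1 h1).ne_zero

/-- maximal minors: the normalised coordinates are bounded combinations of the coordinates of the
minor -/
theorem exists_max_minor {r : Type} [Fintype r] [DecidableEq r] (v : r → ι → ℚ)
    (hv : LinearIndependent ℚ v) (b : ι → ℚ) (hb : ∀ c, 0 < b c) :
    ∃ c : r → ι, (Matrix.of fun i j => v i (c j)).det ≠ 0 ∧
      ∀ d : ι, ∃ θ : r → ℚ, (∀ j, |θ j| ≤ 1) ∧
        ∀ i, v i d / b d = ∑ j, v i (c j) / b (c j) * θ j := by
  classical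
  obtain ⟨c₀, hc₀⟩ := exists_minor v hv
  let A : (r → ι) → Matrix r r ℚ := fun c => Matrix.of fun i j => v i (c j) / b (c j)
  have hA : ∀ c, (Matrix.of fun i j => v i (c j)).det = (∏ j, b (c j)) * (A c).det := by
    intro c
    rw [← Matrix.det_mul_row (fun j => b (c j)) (A c)]
    congr 1
    ext i j
    simp only [Matrix.of_apply, A]
    rw [mul_div_cancel₀ _ (hb (c j)).ne']
  obtain ⟨c, -, hc⟩ := Finset.exists_max_image (Finset.univ : Finset (r → ι))
    (fun c => |(A c).det|) ⟨c₀, Finset.mem_univ _⟩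
  have h0 : (A c₀).det ≠ 0 := by
    intro h
    apply hc₀
    rw [hA, h, mul_zero]
  have hpos : 0 < |(A c).det| :=
    lt_of_lt_of_le (abs_pos.2 h0) (hc c₀ (Finset.mem_univ _))
  have hne : (A c).det ≠ 0 := abs_pos.1 hpos
  refine ⟨c, ?_, ?_⟩
  · rw [hA]
    exact mul_ne_zero (Finset.prod_ne_zero_iff.2 fun j _ => (hb _).ne') hne
  · intro d
    refine ⟨fun j => (A c).cramer (fun i => v i d / b d) j / (A c).det, ?_, ?_⟩
    · intro j
      have h1 : (A c).cramer (fun i => v i d / b d) j = (A (Function.update c j d)).det := by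
        rw [Matrix.cramer_apply]
        congr 1
        ext i l
        by_cases hl : l = j
        · subst hl
          simp [A]
        · simp [A, Matrix.updateCol_ne hl, Function.update_of_ne hl]
      rw [abs_div, h1, div_le_one hpos]
      exact hc _ (Finset.mem_univ _)
    · intro i
      have h2 := congrFun (Matrix.mulVec_cramer (A c) (fun i => v i d / b d)) i
      have h3 : (A c *ᵥ (A c).cramer (fun i => v i d / b d)) i =
          ∑ j, A c i j * (A c).cramer (fun i => v i d / b d) j := rfl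
      rw [h3, Pi.smul_apply, smul_eq_mul] at h2
      have h4 : ∑ j, v i (c j) / b (c j) * ((A c).cramer (fun i => v i d / b d) j / (A c).det) =
          (∑ j, A c i j * (A c).cramer (fun i => v i d / b d) j) / (A c).det := by
        rw [Finset.sum_div]
        refine Finset.sum_congr rfl fun j _ => ?_
        show _ = v i (c j) / b (c j) * _ / _
        rw [mul_div_assoc]
      rw [h4, h2, mul_div_cancel_left₀ _ hne]

/-- determinants with bounded rows -/
theorem det_le_rows {r : Type} [Fintype r] [DecidableEq r] (N : Matrix r r ℚ) (β : r → ℚ)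
    (h : ∀ i j, |N i j| ≤ β i) : |N.det| ≤ (Fintype.card r).factorial * ∏ i, β i := by
  have hβ : ∀ i, 0 ≤ β i := fun i => (abs_nonneg _).trans (h i i)
  rw [Matrix.det_apply]
  refine (Finset.abs_sum_le_sum_abs _ _).trans ?_
  have h1 : ∀ σ ∈ (Finset.univ : Finset (Equiv.Perm r)),
      |Equiv.Perm.sign σ • ∏ i, N (σ i) i| ≤ ∏ i, β i := by
    intro σ _
    have h2 : |Equiv.Perm.sign σ • ∏ i, N (σ i) i| = |∏ i, N (σ i) i| := by
      rcases Int.units_eq_one_or (Equiv.Perm.sign σ) with h3 | h3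
      · rw [h3, one_smul]
      · rw [h3, Units.neg_smul, one_smul, abs_neg]
    rw [h2, Finset.abs_prod, ← Equiv.prod_comp σ β]
    exact Finset.prod_le_prod (fun i _ => abs_nonneg _) (fun i _ => h _ _)
  refine (Finset.sum_le_sum h1).trans ?_
  rw [Finset.sum_const, Finset.card_univ, Fintype.card_perm, nsmul_eq_mul]

/-- the determinant inequality -/
theorem core {κ m : ℕ} (x : Fin κ ⊕ Fin m → ι → ℚ) (hx : LinearIndependent ℚ x)
    (F : (ι → ℚ) →ₗ[ℚ] (ι → ℚ)) (b : ι → ℚ) (hb : ∀ c, 0 < b c) (Cf Y : ℚ)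
    (hF : ∀ c c', |F (Pi.single c' 1) c| * b c' ≤ Cf * b c)
    (hK : ∀ i, F (x (Sum.inl i)) = 0) (y : Fin κ → ι → ℚ) (hy : ∀ i c, |y i c| ≤ Y * b c)
    (M : Matrix (Fin κ ⊕ Fin m) (Fin κ ⊕ Fin m) ℚ) (hM : 1 ≤ |M.det|)
    (hrel : ∀ r, Sum.elim y (fun j => F (x (Sum.inr j))) r = ∑ s, M r s • x s) :
    ∃ c : Fin κ → ι, (Matrix.of fun i j => x (Sum.inl i) (c j)).det ≠ 0 ∧
      |(Matrix.of fun i j => x (Sum.inl i) (c j)).det| ≤
        (κ + m).factorial * (Y ^ κ * (Fintype.card ι * Cf) ^ m) * ∏ j, b (c j) := by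
  classical
  obtain ⟨c₁, hc₁⟩ := exists_minor (fun i => x (Sum.inl i)) (hx.comp _ Sum.inl_injective)
  set A₁ : Matrix (Fin κ) (Fin κ) ℚ := Matrix.of fun i j => x (Sum.inl i) (c₁ j) with hA₁
  set A₂₁ : Matrix (Fin m) (Fin κ) ℚ := Matrix.of fun i j => x (Sum.inr i) (c₁ j) with hA₂₁
  have hu : IsUnit A₁.det := isUnit_iff_ne_zero.2 hc₁
  set α : Matrix (Fin m) (Fin κ) ℚ := A₂₁ * A₁⁻¹ with hα
  -- the modified vectors
  let xt : Fin m → ι → ℚ := fun j => x (Sum.inr j) - ∑ i, α j i • x (Sum.inl i)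
  have hxt : LinearIndependent ℚ xt := by
    rw [Fintype.linearIndependent_iff] at hx ⊢
    intro g hg j
    have h1 := hx (Sum.elim (fun i => -∑ j, g j * α j i) g) (by
      rw [Fintype.sum_sum_type]
      simp only [Sum.elim_inl, Sum.elim_inr]
      have h2 : ∑ j, g j • xt j = ∑ j, g j • x (Sum.inr j) +
          ∑ i, (-∑ j, g j * α j i) • x (Sum.inl i) := by
        simp only [xt, smul_sub, Finset.sum_sub_distrib, neg_smul, Finset.sum_neg_distrib,
          Finset.sum_smul, Finset.smul_sum, smul_smul]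
        rw [sub_eq_add_neg]
        congr 2
        exact Finset.sum_comm
      rw [add_comm, ← h2, hg]) (Sum.inr j)
    exact h1
  obtain ⟨c₂, hc₂, hθ⟩ := exists_max_minor xt hxt b hb
  choose θ hθ1 hθ2 using hθ
  refine ⟨c₁, hc₁, ?_⟩
  -- the first determinant
  set A₁₂ : Matrix (Fin κ) (Fin m) ℚ := Matrix.of fun i j => x (Sum.inl i) (c₂ j) with hA₁₂
  set A₂₂ : Matrix (Fin m) (Fin m) ℚ := Matrix.of fun i j => x (Sum.inr i) (c₂ j) with hA₂₂
  set Xt : Matrix (Fin m) (Fin m) ℚ := Matrix.of fun i j => xt i (c₂ j) with hXt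
  let c : Fin κ ⊕ Fin m → ι := Sum.elim c₁ c₂
  let X : Matrix (Fin κ ⊕ Fin m) (Fin κ ⊕ Fin m) ℚ := Matrix.of fun r s => x r (c s)
  have hXb : X = Matrix.fromBlocks A₁ A₁₂ A₂₁ A₂₂ := by
    ext r s
    rcases r with r | r <;> rcases s with s | s <;> rfl
  have hschur : A₂₂ - A₂₁ * A₁⁻¹ * A₁₂ = Xt := by
    ext i j
    rw [Matrix.sub_apply, Matrix.mul_apply]
    simp only [hA₂₂, hA₁₂, hXt, Matrix.of_apply, xt, Pi.sub_apply, Finset.sum_apply,
      Pi.smul_apply, smul_eq_mul, hα]
  have hinv := A₁.invertibleOfIsUnitDet hu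
  have hdetX : X.det = A₁.det * Xt.det := by
    rw [hXb, Matrix.det_fromBlocks₁₁, Matrix.invOf_eq_nonsing_inv, hschur]
  -- the values of `F`
  have hFx : ∀ j, F (x (Sum.inr j)) = F (xt j) := by
    intro j
    show F (x (Sum.inr j)) = F (x (Sum.inr j) - ∑ i, α j i • x (Sum.inl i))
    rw [map_sub, map_sum]
    simp only [map_smul, hK, smul_zero, Finset.sum_const_zero, sub_zero]
  let T : ι → Fin m → ℚ := fun d l => ∑ c', F (Pi.single c' 1) d * b c' / b d * θ c' l
  have hT : ∀ d l, |T d l| ≤ Fintype.card ι * Cf := by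
    intro d l
    refine (Finset.abs_sum_le_sum_abs _ _).trans ?_
    have h1 : ∀ c' ∈ (Finset.univ : Finset ι),
        |F (Pi.single c' 1) d * b c' / b d * θ c' l| ≤ Cf := by
      intro c' _
      rw [abs_mul, abs_div, abs_mul, abs_of_pos (hb c'), abs_of_pos (hb d)]
      have h2 : |F (Pi.single c' 1) d| * b c' / b d ≤ Cf := by
        rw [div_le_iff₀ (hb d)]
        exact hF d c'
      have h3 : 0 ≤ |F (Pi.single c' 1) d| * b c' / b d :=
        div_nonneg (mul_nonneg (abs_nonneg _) (hb c').le) (hb d).le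
      calc |F (Pi.single c' 1) d| * b c' / b d * |θ c' l| ≤
          |F (Pi.single c' 1) d| * b c' / b d * 1 := mul_le_mul_of_nonneg_left (hθ1 c' l) h3
        _ ≤ Cf := by rw [mul_one]; exact h2
    refine (Finset.sum_le_sum h1).trans ?_
    rw [Finset.sum_const, Finset.card_univ, nsmul_eq_mul]
  have hFT : ∀ j d, F (xt j) d / b d = ∑ l, xt j (c₂ l) / b (c₂ l) * T d l := by
    intro j d
    have h1 : xt j = ∑ c', xt j c' • (Pi.single c' 1 : ι → ℚ) := by
      funext e
      rw [Finset.sum_apply, Finset.sum_eq_single e]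
      · rw [Pi.smul_apply, Pi.single_eq_same, smul_eq_mul, mul_one]
      · intro c' _ hc'
        rw [Pi.smul_apply, Pi.single_eq_of_ne (Ne.symm hc'), smul_zero]
      · intro h
        exact absurd (Finset.mem_univ _) h
    have h2 : F (xt j) d = ∑ c', xt j c' * F (Pi.single c' 1) d := by
      conv_lhs => rw [h1, map_sum]
      rw [Finset.sum_apply]
      refine Finset.sum_congr rfl fun c' _ => ?_
      rw [map_smul, Pi.smul_apply, smul_eq_mul]
    rw [h2, Finset.sum_div]
    simp only [T, Finset.mul_sum]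
    rw [Finset.sum_comm]
    refine Finset.sum_congr rfl fun c' _ => ?_
    have h3 : xt j c' = b c' * ∑ l, xt j (c₂ l) / b (c₂ l) * θ c' l := by
      rw [← hθ2 c' j, mul_div_cancel₀ _ (hb c').ne']
    rw [h3, Finset.mul_sum, Finset.sum_mul, Finset.sum_div]
    refine Finset.sum_congr rfl fun l _ => ?_
    ring
  -- the second determinant
  let N : Matrix (Fin κ ⊕ Fin m) (Fin κ ⊕ Fin m) ℚ :=
    Matrix.of fun r s => Sum.elim y (fun j => F (x (Sum.inr j))) r (c s)
  have hN1 : N = M * X := by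
    ext r s
    rw [Matrix.mul_apply]
    show Sum.elim y (fun j => F (x (Sum.inr j))) r (c s) = ∑ t, M r t * x t (c s)
    rw [hrel r, Finset.sum_apply]
    rfl
  let G : Matrix (Fin κ ⊕ Fin m) (Fin κ ⊕ Fin m) ℚ :=
    Matrix.fromBlocks 1 0 0 (Matrix.of fun j l => xt j (c₂ l) / b (c₂ l))
  let H : Matrix (Fin κ ⊕ Fin m) (Fin κ ⊕ Fin m) ℚ :=
    Matrix.of fun r s => Sum.elim (fun i => y i (c s) / b (c s)) (fun l => T (c s) l) r
  have hN2 : N = Matrix.of fun r s => b (c s) * (G * H) r s := by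
    ext r s
    rw [Matrix.of_apply, Matrix.mul_apply, Fintype.sum_sum_type]
    rcases r with i | j
    · show y i (c s) = _
      have h1 : ∀ i', G (Sum.inl i) (Sum.inl i') = (1 : Matrix (Fin κ) (Fin κ) ℚ) i i' :=
        fun _ => rfl
      have h2 : ∀ l, G (Sum.inl i) (Sum.inr l) = 0 := fun _ => rfl
      simp only [h1, h2, zero_mul, Finset.sum_const_zero, add_zero, Matrix.one_apply, ite_mul,
        one_mul, Finset.sum_ite_eq, Finset.mem_univ, if_true]
      show y i (c s) = b (c s) * (y i (c s) / b (c s))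
      rw [mul_div_cancel₀ _ (hb (c s)).ne']
    · show F (x (Sum.inr j)) (c s) = _
      have h1 : ∀ i', G (Sum.inr j) (Sum.inl i') = 0 := fun _ => rfl
      have h2 : ∀ l, G (Sum.inr j) (Sum.inr l) = xt j (c₂ l) / b (c₂ l) := fun _ => rfl
      have h3 : ∀ l, H (Sum.inr l) s = T (c s) l := fun _ => rfl
      simp only [h1, h2, h3, zero_mul, Finset.sum_const_zero, zero_add]
      rw [← hFT, ← hFx, mul_div_cancel₀ _ (hb (c s)).ne']
  have hdetG : Xt.det = (∏ l, b (c₂ l)) * G.det := by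
    have h1 : G.det = (Matrix.of fun (j l : Fin m) => xt j (c₂ l) / b (c₂ l)).det := by
      show (Matrix.fromBlocks _ _ _ _).det = _
      rw [Matrix.det_fromBlocks_zero₂₁, Matrix.det_one, one_mul]
    rw [h1, ← Matrix.det_mul_row (fun l => b (c₂ l))]
    congr 1
    ext j l
    show xt j (c₂ l) = b (c₂ l) * (xt j (c₂ l) / b (c₂ l))
    rw [mul_div_cancel₀ _ (hb (c₂ l)).ne']
  have hdetN : N.det = (∏ s, b (c s)) * (G.det * H.det) := by
    rw [hN2, Matrix.det_mul_row, Matrix.det_mul]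
  have hprod : ∏ s, b (c s) = (∏ j, b (c₁ j)) * ∏ l, b (c₂ l) := by
    rw [Fintype.prod_sum_type]
    rfl
  have hHb : |H.det| ≤ (κ + m).factorial * (Y ^ κ * (Fintype.card ι * Cf) ^ m) := by
    have h1 := det_le_rows H (Sum.elim (fun _ => Y) (fun _ => Fintype.card ι * Cf)) (by
      intro r s
      rcases r with i | l
      · show |y i (c s) / b (c s)| ≤ Y
        rw [abs_div, abs_of_pos (hb (c s)), div_le_iff₀ (hb (c s))]
        exact hy i (c s)
      · exact hT (c s) l)
    rw [Fintype.card_sum, Fintype.card_fin, Fintype.card_fin, Fintype.prod_sum_type] at h1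
    simpa using h1
  have hXtpos : 0 < |Xt.det| := abs_pos.2 hc₂
  have hb1 : 0 < ∏ j, b (c₁ j) := Finset.prod_pos fun j _ => hb _
  have hb2 : 0 < ∏ l, b (c₂ l) := Finset.prod_pos fun j _ => hb _
  have hmain : |A₁.det| * |Xt.det| ≤ (∏ j, b (c₁ j)) * |Xt.det| * |H.det| := by
    have h1 : N.det = M.det * (A₁.det * Xt.det) := by rw [hN1, Matrix.det_mul, hdetX]
    have h2 : |N.det| = |M.det| * (|A₁.det| * |Xt.det|) := by rw [h1, abs_mul, abs_mul]
    have h3 : |N.det| = (∏ j, b (c₁ j)) * |Xt.det| * |H.det| := by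
      rw [hdetN, hprod, hdetG]
      simp only [abs_mul, abs_of_pos hb1, abs_of_pos hb2]
      ring
    rw [← h3, h2]
    have h4 : 0 ≤ |A₁.det| * |Xt.det| := mul_nonneg (abs_nonneg _) (abs_nonneg _)
    calc |A₁.det| * |Xt.det| = 1 * (|A₁.det| * |Xt.det|) := (one_mul _).symm
      _ ≤ _ := mul_le_mul_of_nonneg_right hM h4
  have hfin : |A₁.det| ≤ (∏ j, b (c₁ j)) * |H.det| := by
    have h1 : |A₁.det| * |Xt.det| ≤ ((∏ j, b (c₁ j)) * |H.det|) * |Xt.det| := by
      calc _ ≤ _ := hmain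
        _ = _ := by ring
    exact le_of_mul_le_mul_right h1 hXtpos
  calc |A₁.det| ≤ (∏ j, b (c₁ j)) * |H.det| := hfin
    _ ≤ (∏ j, b (c₁ j)) * ((κ + m).factorial * (Y ^ κ * (Fintype.card ι * Cf) ^ m)) :=
        mul_le_mul_of_nonneg_left hHb hb1.le
    _ = _ := by ring

end lin

end Pool.Agent.SBG.H51
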