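import Pool.Agent.Helper92_SBG.Stmts
import Pool.Agent.Helper51_SBG.Lin

/-!
# SBG, module KPL
-/

namespace Pool.Agent.SBG.H51

open Matrix

section

variable {ι : Type}

/-- the cast of vectors as a linear map -/
def castL : (ι → ℤ) →ₗ[ℤ] (ι → ℚ) where
  toFun := castv
  map_add' x y := by
    funext i
    simp [castv]
  map_smul' a x := by
    funext i
    simp [castv]

lemma castL_apply (x : ι → ℤ) : castL x = castv x := rfl

lemma castL_ker : LinearMap.ker (castL : (ι → ℤ) →ₗ[ℤ] (ι → ℚ)) = ⊥ := by
  rw [LinearMap.ker_eq_bot]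
  intro x y h
  funext i
  have := congrFun h i
  simpa [castL, castv] using this

/-- independence over the integers and over the rationals -/
lemma indep_cast {r : Type} (v : r → ι → ℤ) (hv : LinearIndependent ℤ v) :
    LinearIndependent ℚ (fun i => castv (v i)) := by
  rw [← LinearIndependent.iff_fractionRing ℤ ℚ]
  exact hv.map' castL castL_ker

lemma castv_sum {r : Type} [Fintype r] (a : r → ℤ) (v : r → ι → ℤ) :
    castv (∑ s, a s • v s) = ∑ s, (a s : ℚ) • castv (v s) := by
  rw [← castL_apply, map_sum]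
  refine Finset.sum_congr rfl fun s _ => ?_
  rw [map_smul, castL_apply]
  funext i
  simp

/-- bases of kernel and image -/
theorem exists_bases [Finite ι] (f : (ι → ℤ) →+ (ι → ℤ)) (L : AddSubgroup (ι → ℤ))
    (hL : ∀ x ∈ L, f x ∈ L) :
    ∃ (κ m : ℕ) (x : Fin κ ⊕ Fin m → ι → ℤ), LinearIndependent ℤ x ∧ (∀ s, x s ∈ L) ∧
      (∀ i, f (x (Sum.inl i)) = 0) ∧
      LinearIndependent ℤ (fun j => f (x (Sum.inr j))) ∧
      (∀ v ∈ L, ∃ a : Fin κ ⊕ Fin m → ℤ, v = ∑ s, a s • x s) ∧
      (∀ v ∈ L, f v = 0 → ∃ a : Fin κ → ℤ, v = ∑ s, a s • x (Sum.inl s)) ∧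
      (∀ v ∈ L, ∃ a : Fin m → ℤ, f v = ∑ s, a s • f (x (Sum.inr s))) := by
  classical
  let Lm : Submodule ℤ (ι → ℤ) := AddSubgroup.toIntSubmodule L
  let φ : Lm →ₗ[ℤ] Lm := LinearMap.restrict f.toIntLinearMap (p := Lm) (q := Lm) hL
  have hφ : ∀ v : Lm, ((φ v : Lm) : ι → ℤ) = f (v : ι → ℤ) := fun v => rfl
  obtain ⟨l, ⟨bL⟩⟩ := Submodule.nonempty_basis_of_pid (Pi.basisFun ℤ ι) Lm
  obtain ⟨κ, ⟨bK⟩⟩ := Submodule.nonempty_basis_of_pid bL (LinearMap.ker φ)
  obtain ⟨m, ⟨bR⟩⟩ := Submodule.nonempty_basis_of_pid bL (LinearMap.range φ)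
  have hpre : ∀ j, ∃ u : Lm, φ u = (bR j : Lm) := fun j => LinearMap.mem_range.1 (bR j).2
  choose u hu using hpre
  -- representation of images
  have hrange : ∀ v : Lm, ∃ a : Fin m → ℤ, φ v = ∑ s, a s • φ (u s) := by
    intro v
    let w : LinearMap.range φ := ⟨φ v, LinearMap.mem_range_self φ v⟩
    refine ⟨fun s => bR.repr w s, ?_⟩
    have h1 := bR.sum_repr w
    have h2 := congrArg (LinearMap.range φ).subtype h1
    rw [map_sum] at h2
    simp only [map_smul, Submodule.subtype_apply] at h2
    simp only [hu]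
    exact h2.symm
  have hker : ∀ v : Lm, φ v = 0 → ∃ a : Fin κ → ℤ, v = ∑ s, a s • (bK s : Lm) := by
    intro v hv
    let w : LinearMap.ker φ := ⟨v, hv⟩
    refine ⟨fun s => bK.repr w s, ?_⟩
    have h1 := bK.sum_repr w
    have h2 := congrArg (LinearMap.ker φ).subtype h1
    rw [map_sum] at h2
    simp only [map_smul, Submodule.subtype_apply] at h2
    exact h2.symm
  let x : Fin κ ⊕ Fin m → Lm := Sum.elim (fun i => (bK i : Lm)) u
  have hφK : ∀ i, φ (bK i : Lm) = 0 := fun i => (bK i).2
  have hindK : LinearIndependent ℤ (fun i => (bK i : Lm)) :=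
    bK.linearIndependent.map' (LinearMap.ker φ).subtype (Submodule.ker_subtype _)
  have hindR : LinearIndependent ℤ (fun j => φ (u j)) := by
    have h1 : (fun j => φ (u j)) = fun j => (bR j : Lm) := by
      funext j
      exact hu j
    rw [h1]
    exact bR.linearIndependent.map' (LinearMap.range φ).subtype (Submodule.ker_subtype _)
  have hx : LinearIndependent ℤ x := by
    rw [Fintype.linearIndependent_iff] at hindK hindR ⊢
    intro g hg
    rw [Fintype.sum_sum_type] at hg
    have hg' : ∑ i, g (Sum.inl i) • (bK i : Lm) + ∑ j, g (Sum.inr j) • u j = 0 := hg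
    have h1 := congrArg φ hg'
    rw [map_add, map_sum, map_sum, map_zero] at h1
    simp only [map_smul, hφK, smul_zero, Finset.sum_const_zero, zero_add] at h1
    have h2 := hindR (fun j => g (Sum.inr j)) h1
    have h3 : ∑ i, g (Sum.inl i) • (bK i : Lm) = 0 := by
      have h4 : ∑ j, g (Sum.inr j) • u j = 0 := by
        refine Finset.sum_eq_zero fun j _ => ?_
        rw [h2 j, zero_smul]
      rw [h4, add_zero] at hg'
      exact hg'
    have h5 := hindK (fun i => g (Sum.inl i)) h3
    rintro (i | j)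
    · exact h5 i
    · exact h2 j
  refine ⟨κ, m, fun s => (x s : ι → ℤ), ?_, fun s => (x s).2, ?_, ?_, ?_, ?_, ?_⟩
  · exact hx.map' Lm.subtype (Submodule.ker_subtype _)
  · intro i
    exact congrArg Subtype.val (hφK i)
  · exact hindR.map' Lm.subtype (Submodule.ker_subtype _)
  · intro v hv
    obtain ⟨a, ha⟩ := hrange ⟨v, hv⟩
    obtain ⟨a', ha'⟩ := hker (⟨v, hv⟩ - ∑ s, a s • u s) (by
      rw [map_sub, map_sum, ha]
      simp only [map_smul, sub_self])
    refine ⟨Sum.elim a' a, ?_⟩
    rw [Fintype.sum_sum_type]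
    rw [sub_eq_iff_eq_add] at ha'
    have h1 := congrArg Lm.subtype ha'
    rw [map_add, map_sum, map_sum] at h1
    exact h1
  · intro v hv hfv
    obtain ⟨a, ha⟩ := hker ⟨v, hv⟩ (by
      apply Subtype.ext
      exact hfv)
    refine ⟨a, ?_⟩
    have h1 := congrArg Lm.subtype ha
    rw [map_sum] at h1
    exact h1
  · intro v hv
    obtain ⟨a, ha⟩ := hrange ⟨v, hv⟩
    refine ⟨a, ?_⟩
    have h1 := congrArg Lm.subtype ha
    rw [map_sum] at h1
    exact h1

end

section

variable {ι : Type} [Fintype ι] [DecidableEq ι]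

omit [DecidableEq ι] in
/-- the choice of the vectors `y` -/
theorem choose_y {κ m : ℕ} (V : Submodule ℚ (ι → ℚ)) (x : Fin κ ⊕ Fin m → ι → ℚ)
    (hx : LinearIndependent ℚ x) (hxV : Submodule.span ℚ (Set.range x) = V)
    (z : Fin m → ι → ℚ) (hz : LinearIndependent ℚ z) (T : Set (ι → ℚ))
    (hzV : ∀ j, z j ∈ V) (hTV : T ⊆ V)
    (hspan : V ≤ Submodule.span ℚ (Set.range z ∪ T)) :
    ∃ y : Fin κ → ι → ℚ, (∀ i, y i ∈ T) ∧ LinearIndependent ℚ (Sum.elim y z) := by
  classical
  have hs : LinearIndepOn ℚ id (Set.range z) := hz.linearIndepOn_id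
  obtain ⟨B, hBt, hsB, htB, hB⟩ := exists_linearIndepOn_id_extension hs
    (Set.subset_union_left (s := Set.range z) (t := T))
  have hBV : Submodule.span ℚ B = V := by
    apply le_antisymm
    · refine Submodule.span_le.2 (hBt.trans ?_)
      rintro w (⟨j, rfl⟩ | hw)
      · exact hzV j
      · exact hTV hw
    · exact hspan.trans (Submodule.span_le.2 htB)
  have hBfin : B.Finite := hB.setFinite
  have hfB := hBfin.fintype
  have hcardB : Fintype.card B = κ + m := by
    have h1 : Module.finrank ℚ (Submodule.span ℚ B) = Fintype.card B := by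
      have h2 := finrank_span_eq_card (R := ℚ) (b := fun w : B => (w : ι → ℚ)) hB
      rwa [Subtype.range_coe] at h2
    have h3 : Module.finrank ℚ (Submodule.span ℚ (Set.range x)) = κ + m := by
      rw [finrank_span_eq_card hx]
      simp
    rw [← h1, hBV, ← hxV, h3]
  have hzinj : Function.Injective z := hz.injective
  -- the complement
  let D : Finset B := Finset.univ.filter fun w => (w : ι → ℚ) ∉ Set.range z
  have hD : D.card = κ := by
    have h1 : (Finset.univ.filter fun w : B => (w : ι → ℚ) ∈ Set.range z).card = m := by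
      let e : Fin m → B := fun j => ⟨z j, hsB ⟨j, rfl⟩⟩
      have he : Function.Injective e := fun i j h => hzinj (congrArg Subtype.val h)
      have h2 : (Finset.univ.filter fun w : B => (w : ι → ℚ) ∈ Set.range z) =
          Finset.univ.image e := by
        ext w
        simp only [Finset.mem_filter, Finset.mem_univ, true_and, Finset.mem_image, Set.mem_range]
        constructor
        · rintro ⟨j, hj⟩
          exact ⟨j, Subtype.ext hj⟩
        · rintro ⟨j, hj⟩
          exact ⟨j, congrArg Subtype.val hj⟩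
      rw [h2, Finset.card_image_of_injective _ he, Finset.card_univ, Fintype.card_fin]
    have h3 := Finset.card_filter_add_card_filter_not (s := (Finset.univ : Finset B))
      (fun w : B => (w : ι → ℚ) ∈ Set.range z)
    rw [h1, Finset.card_univ, hcardB] at h3
    have h4 : D.card = (Finset.univ.filter fun w : B => ¬ (w : ι → ℚ) ∈ Set.range z).card := rfl
    omega
  let e : Fin κ ≃ D := (Fin.castOrderIso hD.symm).toEquiv.trans D.equivFin.symm
  refine ⟨fun i => ((e i : B) : ι → ℚ), ?_, ?_⟩
  · intro i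
    rcases hBt (e i : B).2 with h | h
    · exact absurd h (Finset.mem_filter.1 (e i).2).2
    · exact h
  · let g : Fin κ ⊕ Fin m → B := Sum.elim (fun i => (e i : B)) (fun j => ⟨z j, hsB ⟨j, rfl⟩⟩)
    have hg : Function.Injective g := by
      rintro (i | i) (j | j) h
      · exact congrArg Sum.inl (e.injective (Subtype.ext h))
      · exfalso
        have h1 : ((e i : B) : ι → ℚ) = z j := congrArg Subtype.val h
        exact (Finset.mem_filter.1 (e i).2).2 ⟨j, h1.symm⟩
      · exfalso
        have h1 : z i = ((e j : B) : ι → ℚ) := congrArg Subtype.val h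
        exact (Finset.mem_filter.1 (e j).2).2 ⟨i, h1⟩
      · exact congrArg Sum.inr (hzinj (congrArg Subtype.val h))
    have h1 : LinearIndependent ℚ (fun s => ((g s : B) : ι → ℚ)) := hB.comp g hg
    have h2 : (fun s => ((g s : B) : ι → ℚ)) =
        Sum.elim (fun i => ((e i : B) : ι → ℚ)) z := by
      funext s
      rcases s with i | j
      · rfl
      · rfl
    rwa [h2] at h1

/-- KPL -/
theorem kpl (htdt : TdtStmt) : KplStmt := by
  intro ι _ _ Cf
  refine ⟨(Fintype.card ι).factorial * (max 1 (Fintype.card ι * Cf)) ^ Fintype.card ι, ?_⟩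
  intro b hb Y hY f hf L hL Ys hYs hgen
  classical
  obtain ⟨κ, m, x, hx, hxL, hxK, hxR, hrep, hrepK, hrepR⟩ := exists_bases f L hL
  have hxq := indep_cast x hx
  have hzq := indep_cast (fun j => f (x (Sum.inr j))) hxR
  -- the choice of y
  let V : Submodule ℚ (ι → ℚ) := Submodule.span ℚ (Set.range fun s => castv (x s))
  have hLV : ∀ v ∈ L, castv v ∈ V := by
    intro v hv
    obtain ⟨a, rfl⟩ := hrep v hv
    rw [castv_sum]
    exact Submodule.sum_mem _ fun s _ =>
      Submodule.smul_mem _ _ (Submodule.subset_span ⟨s, rfl⟩)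
  obtain ⟨yq, hyT, hyI⟩ := choose_y V (fun s => castv (x s)) hxq rfl
    (fun j => castv (f (x (Sum.inr j)))) hzq (castv '' (Ys : Set (ι → ℤ)))
    (fun j => hLV _ (hL _ (hxL _)))
    (by
      rintro _ ⟨y, hy, rfl⟩
      exact hLV _ (hYs y hy).1)
    (by
      refine Submodule.span_le.2 ?_
      rintro _ ⟨s, rfl⟩
      obtain ⟨u, hu, w, hw, huw⟩ := AddSubgroup.mem_sup.1 (hgen (hxL s))
      obtain ⟨v, hv, rfl⟩ := hu
      obtain ⟨a, ha⟩ := hrepR v hv
      have h1 : castv (f v) ∈ Submodule.span ℚ (Set.range (fun j => castv (f (x (Sum.inr j)))) ∪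
          castv '' (Ys : Set (ι → ℤ))) := by
        rw [ha, castv_sum]
        exact Submodule.sum_mem _ fun s _ =>
          Submodule.smul_mem _ _ (Submodule.subset_span (Or.inl ⟨s, rfl⟩))
      have h2 : castv w ∈ Submodule.span ℚ (Set.range (fun j => castv (f (x (Sum.inr j)))) ∪
          castv '' (Ys : Set (ι → ℤ))) := by
        refine AddSubgroup.closure_induction (p := fun w _ => castv w ∈ Submodule.span ℚ
          (Set.range (fun j => castv (f (x (Sum.inr j)))) ∪ castv '' (Ys : Set (ι → ℤ))))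
          ?_ ?_ ?_ ?_ hw
        · intro y hy
          exact Submodule.subset_span (Or.inr ⟨y, hy, rfl⟩)
        · have h3 : castv (0 : ι → ℤ) = 0 := by
            funext i
            simp [castv]
          rw [h3]
          exact Submodule.zero_mem _
        · intro y y' _ _ h3 h4
          have h5 : castv (y + y') = castv y + castv y' := by
            funext i
            simp [castv]
          rw [h5]
          exact Submodule.add_mem _ h3 h4
        · intro y _ h3
          have h5 : castv (-y) = -castv y := by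
            funext i
            simp [castv]
          rw [h5]
          exact Submodule.neg_mem _ h3
      have h3 : castv (x s) = castv (f v) + castv w := by
        have h4 : x s = f v + w := huw.symm
        rw [h4]
        funext i
        simp [castv]
      show castv (x s) ∈ _
      rw [h3]
      exact Submodule.add_mem _ h1 h2)
  choose y hyY hycast using hyT
  -- the integer matrix
  let w : Fin κ ⊕ Fin m → ι → ℤ := Sum.elim y (fun j => f (x (Sum.inr j)))
  have hwL : ∀ r, w r ∈ L := by
    rintro (i | j)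
    · exact (hYs _ (hyY i)).1
    · exact hL _ (hxL _)
  have hwM : ∀ r, ∃ a : Fin κ ⊕ Fin m → ℤ, w r = ∑ s, a s • x s := fun r => hrep _ (hwL r)
  choose M hM using hwM
  let Mz : Matrix (Fin κ ⊕ Fin m) (Fin κ ⊕ Fin m) ℤ := Matrix.of M
  let Mq : Matrix (Fin κ ⊕ Fin m) (Fin κ ⊕ Fin m) ℚ := Mz.map (Int.castRingHom ℚ)
  have hdet : Mq.det = (Mz.det : ℚ) := by
    have h1 := (RingHom.map_det (Int.castRingHom ℚ) Mz).symm
    exact h1
  have hwq : ∀ r, castv (w r) = ∑ s, Mq r s • castv (x s) := by
    intro r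
    rw [hM r, castv_sum]
    rfl
  have hwI : LinearIndependent ℚ (fun r => castv (w r)) := by
    have h1 : (fun r => castv (w r)) = Sum.elim yq (fun j => castv (f (x (Sum.inr j)))) := by
      funext r
      rcases r with i | j
      · exact hycast i
      · rfl
    rw [h1]
    exact hyI
  have hMne : Mq.det ≠ 0 := by
    intro h0
    obtain ⟨v, hv0, hv⟩ := Matrix.exists_vecMul_eq_zero_iff.2 h0
    apply hv0
    rw [Fintype.linearIndependent_iff] at hwI
    funext r
    refine hwI v ?_ r
    calc ∑ r, v r • castv (w r) = ∑ r, ∑ s, (v r * Mq r s) • castv (x s) := by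
          refine Finset.sum_congr rfl fun r _ => ?_
          rw [hwq r, Finset.smul_sum]
          simp only [smul_smul]
      _ = ∑ s, (v ᵥ* Mq) s • castv (x s) := by
          rw [Finset.sum_comm]
          refine Finset.sum_congr rfl fun s _ => ?_
          rw [← Finset.sum_smul]
          rfl
      _ = 0 := by
          rw [hv]
          simp
  have hM1 : 1 ≤ |Mq.det| := by
    rw [hdet] at hMne ⊢
    have h1 : Mz.det ≠ 0 := by exact_mod_cast hMne
    have h2 : 1 ≤ |Mz.det| := Int.one_le_abs h1
    exact_mod_cast h2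
  -- the rational operator
  let F : (ι → ℚ) →ₗ[ℚ] (ι → ℚ) :=
    Matrix.mulVecLin (Matrix.of fun c c' => ((f (Pi.single c' 1) c : ℤ) : ℚ))
  have hFs : ∀ c c', F (Pi.single c' 1) c = ((f (Pi.single c' 1) c : ℤ) : ℚ) := by
    intro c c'
    show (Matrix.of (fun c c' => ((f (Pi.single c' 1) c : ℤ) : ℚ)) *ᵥ Pi.single c' 1) c = _
    rw [Matrix.mulVec_single_one]
    rfl
  have hFv : ∀ v : ι → ℤ, F (castv v) = castv (f v) := by
    intro v
    have h1 : v = ∑ c', v c' • (Pi.single c' 1 : ι → ℤ) := by
      funext e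
      rw [Finset.sum_apply, Finset.sum_eq_single e]
      · rw [Pi.smul_apply, Pi.single_eq_same, smul_eq_mul, mul_one]
      · intro c' _ hc'
        rw [Pi.smul_apply, Pi.single_eq_of_ne (Ne.symm hc'), smul_zero]
      · intro h
        exact absurd (Finset.mem_univ _) h
    have h2 : f v = ∑ c', v c' • f (Pi.single c' 1) := by
      conv_lhs => rw [h1, map_sum]
      simp only [map_zsmul]
    rw [h2, castv_sum]
    funext c
    show ∑ c', ((f (Pi.single c' 1) c : ℤ) : ℚ) * castv v c' = _
    rw [Finset.sum_apply]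
    refine Finset.sum_congr rfl fun c' _ => ?_
    rw [Pi.smul_apply, smul_eq_mul, mul_comm]
    rfl
  obtain ⟨c, hc0, hcb⟩ := core (fun s => castv (x s)) hxq F (fun c => (b c : ℚ))
    (fun c => by exact_mod_cast hb c) (Cf : ℚ) (Y : ℚ)
    (by
      intro c c'
      rw [hFs]
      have h1 := hf c c'
      exact_mod_cast h1)
    (by
      intro i
      rw [hFv, hxK]
      funext c
      simp [castv])
    (fun i => castv (y i))
    (by
      intro i c
      have h1 := (hYs _ (hyY i)).2 c
      show |((y i c : ℤ) : ℚ)| ≤ Y * b c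
      exact_mod_cast h1)
    Mq hM1
    (by
      intro r
      rw [← hwq r]
      rcases r with i | j
      · rfl
      · exact hFv _)
  -- the integral minor
  let A : Matrix (Fin κ) (Fin κ) ℤ := Matrix.of fun i j => x (Sum.inl i) (c j)
  have hA : (Matrix.of fun i j => castv (x (Sum.inl i)) (c j)).det = (A.det : ℚ) := by
    have h1 := (RingHom.map_det (Int.castRingHom ℚ) A).symm
    exact h1
  rw [hA] at hc0 hcb
  have hA0 : A.det ≠ 0 := by exact_mod_cast hc0
  have hK : AddSubgroup.closure (Set.range fun i => x (Sum.inl i)) = L ⊓ f.ker := by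
    apply le_antisymm
    · rw [AddSubgroup.closure_le]
      rintro _ ⟨i, rfl⟩
      exact ⟨hxL _, hxK i⟩
    · rintro v ⟨hv, hv0⟩
      obtain ⟨a, rfl⟩ := hrepK v hv hv0
      exact AddSubgroup.sum_mem _ fun i _ =>
        AddSubgroup.zsmul_mem _ (AddSubgroup.subset_closure (Set.mem_range_self i)) _
  have hT := htdt ι κ (fun i => x (Sum.inl i)) c hA0
  rw [hK] at hT
  have hcinj : Function.Injective c := by
    intro i j hij
    by_contra hne
    apply hA0
    refine Matrix.det_zero_of_column_eq hne fun l => ?_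
    show x (Sum.inl l) (c i) = x (Sum.inl l) (c j)
    rw [hij]
  refine ⟨Finset.univ.image c, ?_, hT.1, ?_⟩
  · intro d hd
    obtain ⟨j, -, rfl⟩ := Finset.mem_image.1 hd
    by_contra hcon
    push Not at hcon
    apply hA0
    refine Matrix.det_eq_zero_of_column_eq_zero j fun i => ?_
    exact hcon _ ⟨hxL _, hxK i⟩
  · have hcard : (Finset.univ.image c).card = κ := by
      rw [Finset.card_image_of_injective _ hcinj, Finset.card_univ, Fintype.card_fin]
    have hprod : ∏ d ∈ Finset.univ.image c, b d = ∏ j, b (c j) :=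
      Finset.prod_image fun i _ j _ h => hcinj h
    rw [hcard, hprod]
    have hle : κ + m ≤ Fintype.card ι := by
      have h1 := hxq.fintype_card_le_finrank
      rw [Module.finrank_fintype_fun_eq_card] at h1
      simpa using h1
    have h1 : (L ⊓ f.ker).relIndex (sat (L ⊓ f.ker)) ≤ A.det.natAbs :=
      Nat.le_of_dvd (Int.natAbs_pos.2 hA0) hT.2
    have h2 : A.det.natAbs ≤
        (κ + m).factorial * (Y ^ κ * (Fintype.card ι * Cf) ^ m) * ∏ j, b (c j) := by
      have h3 : ((A.det.natAbs : ℕ) : ℚ) = |(A.det : ℚ)| := by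
        rw [Nat.cast_natAbs, Int.cast_abs]
      have h4 : ((A.det.natAbs : ℕ) : ℚ) ≤
          (((κ + m).factorial * (Y ^ κ * (Fintype.card ι * Cf) ^ m) * ∏ j, b (c j) : ℕ) : ℚ) := by
        rw [h3]
        rw [Nat.cast_mul, Nat.cast_mul, Nat.cast_mul, Nat.cast_pow, Nat.cast_pow, Nat.cast_mul,
          Nat.cast_prod]
        exact hcb
      exact_mod_cast h4
    have h5 : (κ + m).factorial ≤ (Fintype.card ι).factorial := Nat.factorial_le hle
    have h6 : (Fintype.card ι * Cf) ^ m ≤ (max 1 (Fintype.card ι * Cf)) ^ Fintype.card ι :=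
      (Nat.pow_le_pow_left (le_max_right _ _) _).trans
        (Nat.pow_le_pow_right (lt_of_lt_of_le one_pos (le_max_left _ _)) (by omega))
    calc (L ⊓ f.ker).relIndex (sat (L ⊓ f.ker)) ≤ _ := h1.trans h2
      _ ≤ (Fintype.card ι).factorial *
          (Y ^ κ * (max 1 (Fintype.card ι * Cf)) ^ Fintype.card ι) * ∏ j, b (c j) :=
          Nat.mul_le_mul_right _ (Nat.mul_le_mul h5 (Nat.mul_le_mul_left _ h6))
      _ = _ := by ring

end

end Pool.Agent.SBG.H51
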